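import Pool.Agent.H83.BI.S8.W133.DQ.StC

set_option autoImplicit false

open scoped ContDiff
open Set Filter Topology Pool.Agent.W133.DQ

namespace Pool.Agent.W509.DQ

/-- omega limit sets -/
theorem omega_set (Φ : ℝ → Equiv.Perm P2) (hadd : ∀ s t, Φ (s + t) = Φ s * Φ t)
    (hcont : Continuous (fun q : ℝ × P2 => Φ q.1 q.2)) (K : Set P2) (hK : IsCompact K) (p : P2)
    (hp : ∀ t : ℝ, 0 ≤ t → Φ t p ∈ K) :
    ∃ M : Set P2, IsCompact M ∧ M.Nonempty ∧ M ⊆ K ∧ (∀ t, ∀ q ∈ M, Φ t q ∈ M) ∧
      ∀ n : ℕ, M ⊆ closure ((fun t => Φ t p) '' Ici (n : ℝ)) := by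
  set A : ℕ → Set P2 := fun n => closure ((fun t => Φ t p) '' Ici (n : ℝ)) with hA
  have hAK : ∀ n, A n ⊆ K := by
    intro n
    apply closure_minimal _ hK.isClosed
    rintro _ ⟨t, ht, rfl⟩
    exact hp t (le_trans (Nat.cast_nonneg n) ht)
  have hAc : ∀ n, IsCompact (A n) := fun n => hK.of_isClosed_subset isClosed_closure (hAK n)
  refine ⟨⋂ n, A n, ?_, ?_, ?_, ?_, ?_⟩
  · exact (hAc 0).of_isClosed_subset (isClosed_iInter fun n => isClosed_closure) (iInter_subset _ 0)
  · apply IsCompact.nonempty_iInter_of_sequence_nonempty_isCompact_isClosed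
    · intro i
      apply closure_mono
      apply image_mono
      apply Ici_subset_Ici.2
      push_cast
      linarith
    · intro i
      exact ⟨Φ i p, subset_closure ⟨(i : ℝ), self_mem_Ici, rfl⟩⟩
    · exact hAc 0
    · intro i
      exact isClosed_closure
  · exact (iInter_subset _ 0).trans (hAK 0)
  · intro s q hq
    rw [mem_iInter] at hq ⊢
    intro n
    obtain ⟨k, hk⟩ := exists_nat_ge (|s|)
    have h1 := hq (n + k)
    have hc : Continuous (fun q : P2 => Φ s q) := hcont.comp (continuous_const.prodMk continuous_id)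
    refine map_mem_closure hc h1 ?_
    rintro _ ⟨t, ht, rfl⟩
    refine ⟨s + t, ?_, ?_⟩
    · simp only [mem_Ici] at ht ⊢
      push_cast at ht
      have := neg_abs_le s
      linarith
    · simp only [hadd, Equiv.Perm.mul_apply]
  · intro n
    exact iInter_subset _ n

theorem minset : S_MINSET := by
  intro Φ h0 hadd hcont M hM hMne hinv
  obtain ⟨M', hM'M, hmin⟩ := zorn_superset_nonempty
    {A : Set P2 | IsCompact A ∧ A.Nonempty ∧ ∀ t, ∀ p ∈ A, Φ t p ∈ A}
    (by
      intro c hc hchain hcne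
      refine ⟨⋂₀ c, ⟨?_, ?_, ?_⟩, fun s hs => sInter_subset_of_mem hs⟩
      · obtain ⟨s, hs⟩ := hcne
        exact (hc hs).1.of_isClosed_subset (isClosed_sInter fun t ht => (hc ht).1.isClosed)
          (sInter_subset_of_mem hs)
      · have : Nonempty c := hcne.to_subtype
        exact IsCompact.nonempty_sInter_of_directed_nonempty_isCompact_isClosed
          (fun a ha b hb => by
            rcases hchain.total ha hb with h | h
            · exact ⟨a, ha, subset_refl _, h⟩
            · exact ⟨b, hb, h, subset_refl _⟩) (fun s hs => (hc hs).2.1) (fun s hs => (hc hs).1)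
          (fun s hs => (hc hs).1.isClosed)
      · intro t p hp
        rw [mem_sInter] at hp ⊢
        intro s hs
        exact (hc hs).2.2 t p (hp s hs))
    M ⟨hM, hMne, hinv⟩
  obtain ⟨⟨c1, c2, c3⟩, hle⟩ := hmin
  obtain ⟨m, hm, hmm⟩ := c1.exists_isMinOn c2 (f := fun p : P2 => p.2) continuous_snd.continuousOn
  refine ⟨m, hM'M hm, fun t => hmm (c3 t m hm), ?_⟩
  intro ε hε T₀
  obtain ⟨W, w1, w2, w3, w4, w5⟩ := omega_set Φ hadd hcont M' c1 m (fun t _ => c3 t m hm)
  have hWM : M' ⊆ W := hle ⟨w1, w2, w4⟩ w3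
  obtain ⟨n, hn⟩ := exists_nat_gt T₀
  have := w5 n (hWM hm)
  rw [Metric.mem_closure_iff] at this
  obtain ⟨_, ⟨t, ht, rfl⟩, hd⟩ := this ε hε
  refine ⟨t, lt_of_lt_of_le hn ht, ?_⟩
  rw [dist_eq_norm, norm_sub_rev] at hd
  exact hd

theorem xf_norm (ψ : P2 → ℝ) (p : P2) : ‖XF ψ p‖ ≤ 1 := by
  unfold XF
  rw [Prod.norm_def]
  exact max_le (by simpa using Real.abs_cos_le_one _) (by simpa using Real.abs_sin_le_one _)

theorem curve_lip {ψ : P2 → ℝ} {c : ℝ → P2} (hc : ∀ t, HasDerivAt c (XF ψ (c t)) t) (s t : ℝ) :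
    ‖c t - c s‖ ≤ |t - s| := by
  have := Convex.norm_image_sub_le_of_norm_hasDerivWithin_le (𝕜 := ℝ) (f := c)
    (f' := fun t => XF ψ (c t)) (s := Set.univ) (C := 1)
    (fun x _ => (hc x).hasDerivWithinAt) (fun x _ => xf_norm ψ (c x)) convex_univ
    (Set.mem_univ s) (Set.mem_univ t)
  simpa [Real.norm_eq_abs] using this

theorem curve_fst {ψ : P2 → ℝ} {c : ℝ → P2} (hc : ∀ t, HasDerivAt c (XF ψ (c t)) t) (t : ℝ) :
    HasDerivAt (fun t => (c t).1) (Real.cos (ψ (c t))) t := by
  exact (hasFDerivAt_fst (𝕜 := ℝ) (p := c t)).comp_hasDerivAt t (hc t)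

theorem curve_snd {ψ : P2 → ℝ} {c : ℝ → P2} (hc : ∀ t, HasDerivAt c (XF ψ (c t)) t) (t : ℝ) :
    HasDerivAt (fun t => (c t).2) (Real.sin (ψ (c t))) t := by
  exact (hasFDerivAt_snd (𝕜 := ℝ) (p := c t)).comp_hasDerivAt t (hc t)

theorem ret : S_RETURN := by
  intro ψ c hψ hc hinj hht h0 hrec
  have hcc : Continuous c := continuous_iff_continuousAt.2 fun t => (hc t).continuousAt
  -- radius
  obtain ⟨r, hr, hr'⟩ := Metric.continuousAt_iff.1 (hψ.continuousAt (x := c 0)) (Real.pi / 3)
    (by positivity)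
  set ρ : ℝ := r / 5 with hρ
  have hρ0 : 0 < ρ := by positivity
  have hang : ∀ p : P2, ‖p - c 0‖ ≤ 4 * ρ → |ψ p| < Real.pi / 3 := by
    intro p hp
    have := hr' (x := p) (by rw [dist_eq_norm]; linarith)
    rw [h0, dist_zero_right, Real.norm_eq_abs] at this
    exact this
  have hcos : ∀ p : P2, ‖p - c 0‖ ≤ 4 * ρ → 1 / 2 ≤ Real.cos (ψ p) := by
    intro p hp
    have := hang p hp
    rw [← Real.cos_abs, ← Real.cos_pi_div_three]
    apply Real.cos_le_cos_of_nonneg_of_le_pi (abs_nonneg _) _ this.le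
    have := Real.pi_pos
    linarith
  -- speed
  have hspeed : ∀ s t : ℝ, s ≤ t → (∀ u, s ≤ u → u ≤ t → ‖c u - c 0‖ ≤ 4 * ρ) →
      1 / 2 * (t - s) ≤ (c t).1 - (c s).1 := by
    intro s t hst hu
    have hdiff : ∀ u, HasDerivAt (fun t => (c t).1) (Real.cos (ψ (c u))) u := curve_fst hc
    apply Convex.mul_sub_le_image_sub_of_le_deriv (convex_Icc s t) (C := 1 / 2)
      (f := fun t => (c t).1)
      (fun u _ => (hdiff u).continuousAt.continuousWithinAt)
      (fun u _ => (hdiff u).differentiableAt.differentiableWithinAt) _ s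
      (left_mem_Icc.2 hst) t (right_mem_Icc.2 hst) hst
    intro u hu'
    rw [interior_Icc] at hu'
    rw [(hdiff u).deriv]
    exact hcos _ (hu u hu'.1.le hu'.2.le)
  -- (a)
  have ha : ∀ t, 0 < t → t ≤ ρ → (c 0).1 < (c t).1 := by
    intro t ht htρ
    have := hspeed 0 t ht.le (fun u hu1 hu2 => by
      have := curve_lip hc 0 u
      rw [sub_zero, abs_of_nonneg hu1] at this
      linarith)
    linarith
  set Z : Set ℝ := {t | ρ ≤ t ∧ (c t).1 = (c 0).1 ∧ (c t).2 ≤ (c 0).2 + 2 * ρ} with hZ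
  have hZmem : ∀ t, 0 < t → (c t).1 = (c 0).1 → (c t).2 ≤ (c 0).2 + 2 * ρ → t ∈ Z := by
    intro t ht h1 h2
    refine ⟨?_, h1, h2⟩
    by_contra hlt
    push Not at hlt
    have := ha t ht hlt.le
    linarith
  have hZclosed : IsClosed Z := by
    apply (isClosed_le continuous_const continuous_id).inter
    apply (isClosed_eq (continuous_fst.comp hcc) continuous_const).inter
    exact isClosed_le (continuous_snd.comp hcc) continuous_const
  have hZne : Z.Nonempty := by
    obtain ⟨t1, ht1, hd1⟩ := hrec (ρ / 4) (by positivity) (4 * ρ)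
    have hnear : ∀ u, |u - t1| ≤ ρ / 2 → ‖c u - c 0‖ ≤ ρ := by
      intro u hu
      have h1 := curve_lip hc t1 u
      have h2 : c u - c 0 = (c u - c t1) + (c t1 - c 0) := by abel
      rw [h2]
      refine (norm_add_le _ _).trans ?_
      linarith
    have hb1 : |(c t1).1 - (c 0).1| < ρ / 4 := by
      refine lt_of_le_of_lt ?_ hd1
      have := norm_fst_le (c t1 - c 0)
      simpa [Real.norm_eq_abs] using this
    rw [abs_lt] at hb1
    have hr1 := hspeed t1 (t1 + ρ / 2) (by linarith) (fun u hu1 hu2 => by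
      have := hnear u (by rw [abs_le]; constructor <;> linarith)
      linarith)
    have hr2 := hspeed (t1 - ρ / 2) t1 (by linarith) (fun u hu1 hu2 => by
      have := hnear u (by rw [abs_le]; constructor <;> linarith)
      linarith)
    have hivt : (c 0).1 ∈ (fun t => (c t).1) '' Icc (t1 - ρ / 2) (t1 + ρ / 2) := by
      apply intermediate_value_Icc (by linarith) (continuous_fst.comp hcc).continuousOn
      constructor
      · show (c (t1 - ρ / 2)).1 ≤ (c 0).1
        linarith
      · show (c 0).1 ≤ (c (t1 + ρ / 2)).1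
        linarith
    obtain ⟨t2, ht2, he2⟩ := hivt
    refine ⟨t2, hZmem t2 (by linarith [ht2.1]) he2 ?_⟩
    have h3 := hnear t2 (by rw [abs_le]; constructor <;> linarith [ht2.1, ht2.2])
    have h4 := norm_snd_le (c t2 - c 0)
    rw [Prod.snd_sub, Real.norm_eq_abs] at h4
    have h5 := (abs_le.1 (h4.trans h3)).2
    linarith
  have hZbdd : BddBelow Z := ⟨ρ, fun t ht => ht.1⟩
  have hτ := hZclosed.csInf_mem hZne hZbdd
  set τ := sInf Z with hτdef
  have hτle : ∀ t ∈ Z, τ ≤ t := fun t ht => csInf_le hZbdd ht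
  refine ⟨τ, lt_of_lt_of_le hρ0 hτ.1, hτ.2.1, ?_, ?_, ?_⟩
  · have h1 := hht τ
    have h2 : ‖c τ - c 0‖ ≤ 4 * ρ := by
      rw [Prod.norm_def]
      apply max_le
      · rw [Prod.fst_sub, hτ.2.1, sub_self, norm_zero]; positivity
      · rw [Prod.snd_sub, Real.norm_eq_abs, abs_of_nonneg (by linarith)]
        have := hτ.2.2
        linarith
    have := hang _ h2
    have := Real.pi_pos
    linarith
  · intro s t hs hst ht hcs
    have h1 := hinj s t hcs (-s)
    rw [add_neg_cancel] at h1
    have h2 : t + -s ∈ Z := hZmem _ (by linarith) (by rw [← h1]) (by rw [← h1]; linarith)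
    have h3 := hτle _ h2
    constructor <;> linarith
  · rintro t ht0 ht ⟨h1, h2⟩
    have h3 := hτ.2.2
    have := hτle t (hZmem t ht0 h1 (by linarith))
    linarith

theorem noinv (hM : S_MINSET) (hR : S_RETURN) (hC : S_CURVE) : S_NOINV := by
  intro ψ Φ hψ hΦ M hMc hMne hinv
  obtain ⟨h0, hadd, hsm, hder⟩ := hΦ
  obtain ⟨m, hmM, hmin, hrec⟩ := hM Φ h0 hadd hsm.continuous M hMc hMne hinv
  -- core
  have core : ∀ (ψ : P2 → ℝ) (c : ℝ → P2), Continuous ψ → (∀ t, HasDerivAt c (XF ψ (c t)) t) →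
      (∀ s t, c s = c t → ∀ u, c (s + u) = c (t + u)) → (∀ t, (c 0).2 ≤ (c t).2) →
      ψ (c 0) = 0 → (∀ ε : ℝ, 0 < ε → ∀ T₀ : ℝ, ∃ t : ℝ, T₀ < t ∧ ‖c t - c 0‖ < ε) → False := by
    intro ψ c a1 a2 a3 a4 a5 a6
    obtain ⟨τ, b1, b2, b3, b4, b5⟩ := hR ψ c a1 a2 a3 a4 a5 a6
    exact hC ψ c τ a1 b1 a2 (fun t _ _ => a4 t) a5 b2 b3 b4 b5
  set c : ℝ → P2 := fun t => Φ t m with hc
  have hc0 : c 0 = m := by simp [hc, h0]
  have hcd : ∀ t, HasDerivAt c (XF ψ (c t)) t := fun t => hder t m
  have hinj : ∀ s t, c s = c t → ∀ u, c (s + u) = c (t + u) := by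
    intro s t hst u
    simp only [hc] at hst ⊢
    rw [add_comm s u, add_comm t u, hadd, hadd, Equiv.Perm.mul_apply, Equiv.Perm.mul_apply, hst]
  have hht : ∀ t, (c 0).2 ≤ (c t).2 := by
    intro t
    rw [hc0]
    exact hmin t
  have hrec' : ∀ ε : ℝ, 0 < ε → ∀ T₀ : ℝ, ∃ t : ℝ, T₀ < t ∧ ‖c t - c 0‖ < ε := by
    rw [hc0]
    exact hrec
  have hsin : Real.sin (ψ (c 0)) = 0 := by
    have h1 : IsLocalMin (fun t => (c t).2) 0 := Filter.Eventually.of_forall fun t => hht t
    exact h1.hasDerivAt_eq_zero (curve_snd hcd 0)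
  obtain ⟨k, hk⟩ := Real.sin_eq_zero_iff.1 hsin
  rcases Int.even_or_odd k with ⟨j, hj⟩ | ⟨j, hj⟩
  · apply core (fun p => ψ p - k * Real.pi) c (hψ.continuous.sub continuous_const) _ hinj hht
      (by rw [hk, sub_self]) hrec'
    intro t
    have : XF (fun p => ψ p - k * Real.pi) (c t) = XF ψ (c t) := by
      unfold XF
      have e : ψ (c t) - (k : ℝ) * Real.pi = ψ (c t) - j * (2 * Real.pi) := by
        rw [hj]; push_cast; ring
      simp only [e, Real.cos_sub_int_mul_two_pi, Real.sin_sub_int_mul_two_pi]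
    rw [this]
    exact hcd t
  · apply core (fun p => k * Real.pi - ψ (-p.1, p.2)) (fun t => (-(c t).1, (c t).2))
    · exact continuous_const.sub (hψ.continuous.comp (by fun_prop))
    · intro t
      have h1 := (curve_fst hcd t).neg
      have h2 := curve_snd hcd t
      have h3 : XF (fun p : P2 => k * Real.pi - ψ (-p.1, p.2)) (-(c t).1, (c t).2)
          = (-Real.cos (ψ (c t)), Real.sin (ψ (c t))) := by
        unfold XF
        have e : (k : ℝ) * Real.pi - ψ (-(-(c t).1, (c t).2).1, (-(c t).1, (c t).2).2)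
            = (Real.pi - ψ (c t)) + j * (2 * Real.pi) := by
          rw [hj]; push_cast
          simp only [neg_neg]
          ring
        simp only [e, Real.cos_add_int_mul_two_pi, Real.sin_add_int_mul_two_pi,
          Real.cos_pi_sub, Real.sin_pi_sub]
      rw [h3]
      exact h1.prodMk h2
    · intro s t hst u
      have h1 : c s = c t := by
        simp only [Prod.mk.injEq, neg_inj] at hst
        exact Prod.ext hst.1 hst.2
      rw [hinj s t h1 u]
    · intro t
      exact hht t
    · simp only [neg_neg]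
      rw [hk]
      simp
    · intro ε hε T₀
      obtain ⟨t, ht, hd⟩ := hrec' ε hε T₀
      refine ⟨t, ht, ?_⟩
      rw [Prod.norm_def] at hd ⊢
      refine lt_of_le_of_lt (le_of_eq ?_) hd
      simp only [Prod.mk_sub_mk, Prod.fst_sub, Prod.snd_sub, Real.norm_eq_abs]
      rw [show -(c t).1 - -(c 0).1 = -((c t).1 - (c 0).1) by ring, abs_neg]

/-- forward bounded orbits -/
theorem bdd_curve {ψ : P2 → ℝ} {R : ℝ} (hψR : ∀ p, R ≤ ‖p‖ → ψ p = 0)
    {c : ℝ → P2} (hc : ∀ t, HasDerivAt c (XF ψ (c t)) t) (hx : ∀ t, 0 ≤ t → (c t).1 ≤ R) :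
    ∃ K : Set P2, IsCompact K ∧ ∀ t, 0 ≤ t → c t ∈ K := by
  have hcc : Continuous c := continuous_iff_continuousAt.2 fun t => (hc t).continuousAt
  by_cases hy : ∃ T₀ : ℝ, 0 ≤ T₀ ∧ R < |(c T₀).2|
  · exfalso
    obtain ⟨T₀, hT₀, hyT⟩ := hy
    -- y is constant
    have hconst : ∀ t, (c t).2 = (c T₀).2 := by
      have hclopen : IsClopen {t | (c t).2 = (c T₀).2} := by
        refine ⟨isClosed_eq (continuous_snd.comp hcc) continuous_const, ?_⟩
        rw [Metric.isOpen_iff]
        intro t ht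
        simp only [mem_ofPred_eq] at ht
        have h1 : R < |(c t).2| := by rw [ht]; exact hyT
        have h2 : ∀ᶠ s in 𝓝 t, R < |(c s).2| :=
          (continuous_abs.comp (continuous_snd.comp hcc)).continuousAt.eventually
            (lt_mem_nhds h1)
        obtain ⟨ε, hε, hball⟩ := Metric.eventually_nhds_iff_ball.1 h2
        refine ⟨ε, hε, fun s hs => ?_⟩
        have h3 : ∀ u ∈ Metric.ball t ε, HasDerivWithinAt (fun t => (c t).2) 0 (Metric.ball t ε) u := by
          intro u hu
          have h4 := curve_snd hc u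
          have h5 : ψ (c u) = 0 := by
            apply hψR
            have := norm_snd_le (c u)
            have := hball u hu
            rw [← Real.norm_eq_abs] at this
            linarith
          rw [h5, Real.sin_zero] at h4
          exact h4.hasDerivWithinAt
        have h6 := Convex.norm_image_sub_le_of_norm_hasDerivWithin_le (C := 0) h3
          (fun u _ => by simp) (convex_ball t ε) (Metric.mem_ball_self hε) hs
        simp only [zero_mul, norm_le_zero_iff, sub_eq_zero] at h6
        simp only [mem_ofPred_eq]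
        rw [h6, ht]
      have huniv := hclopen.eq_univ ⟨T₀, rfl⟩
      intro t
      have : t ∈ {t | (c t).2 = (c T₀).2} := by rw [huniv]; exact mem_univ t
      exact this
    have hder : ∀ t, HasDerivAt (fun t => (c t).1) 1 t := by
      intro t
      have h4 := curve_fst hc t
      have h5 : ψ (c t) = 0 := by
        apply hψR
        have h6 := norm_snd_le (c t)
        rw [hconst t, Real.norm_eq_abs] at h6
        linarith
      rwa [h5, Real.cos_zero] at h4
    have hlin : ∀ t, (c t).1 - t = (c 0).1 - 0 := by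
      intro t
      have hd : ∀ t, HasDerivAt (fun t => (c t).1 - t) 0 t := by
        intro t
        have := (hder t).sub (hasDerivAt_id t)
        rw [sub_self] at this
        exact this
      exact is_const_of_deriv_eq_zero (fun t => (hd t).differentiableAt)
        (fun t => (hd t).deriv) t 0
    have h7 := hx (|R - (c 0).1| + 1) (by positivity)
    have h8 := hlin (|R - (c 0).1| + 1)
    have h9 := le_abs_self (R - (c 0).1)
    linarith
  · push Not at hy
    set a := min (c 0).1 (-R) with ha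
    refine ⟨Icc a R ×ˢ Icc (-R) R, isCompact_Icc.prod isCompact_Icc, ?_⟩
    intro t ht
    refine ⟨⟨?_, hx t ht⟩, abs_le.1 (hy t ht)⟩
    have hf := image_le_of_deriv_right_lt_deriv_boundary (f := fun t => -(c t).1)
      (f' := fun t => -Real.cos (ψ (c t))) (a := 0) (b := t) (B := fun _ => -a) (B' := fun _ => 0)
      (continuous_fst.comp hcc).neg.continuousOn
      (fun x _ => (curve_fst hc x).neg.hasDerivWithinAt)
      (neg_le_neg (min_le_left _ _))
      (fun x => hasDerivAt_const x (-a))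
      (by
        intro x _ hxa
        simp only [neg_inj] at hxa
        have h5 : ψ (c x) = 0 := by
          apply hψR
          have h6 := norm_fst_le (c x)
          rw [hxa, Real.norm_eq_abs] at h6
          have h7 : a ≤ -R := min_le_right _ _
          have := neg_abs_le a
          linarith
        rw [h5, Real.cos_zero]
        norm_num)
      (right_mem_Icc.2 ht)
    linarith

theorem esc (hN : S_NOINV) : S_ESC := by
  intro ψ R Φ hψ hR hψR hΦ p
  have hΦ' := hΦ
  obtain ⟨h0, hadd, hsm, hder⟩ := hΦ'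
  constructor
  · by_contra hcon
    push Not at hcon
    obtain ⟨K, hK, hKc⟩ := bdd_curve hψR (c := fun t => Φ t p) (fun t => hder t p) hcon
    obtain ⟨M, m1, m2, m3, m4, m5⟩ := omega_set Φ hadd hsm.continuous K hK p hKc
    exact hN ψ Φ hψ hΦ M m1 m2 m4
  · by_contra hcon
    push Not at hcon
    have hd : ∀ t, HasDerivAt (fun t => ((-(Φ (-t) p).1, (Φ (-t) p).2) : P2))
        (XF (fun q : P2 => -ψ (-q.1, q.2)) (-(Φ (-t) p).1, (Φ (-t) p).2)) t := by
      intro t
      have e1 := (curve_fst (c := fun t => Φ t p) (fun t => hder t p) (-t)).scomp t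
        (hasDerivAt_neg t)
      have e2 := (curve_snd (c := fun t => Φ t p) (fun t => hder t p) (-t)).scomp t
        (hasDerivAt_neg t)
      have e3 := (e1.neg).prodMk e2
      have e4 : XF (fun q : P2 => -ψ (-q.1, q.2)) (-(Φ (-t) p).1, (Φ (-t) p).2)
          = (-((-1 : ℝ) • Real.cos (ψ (Φ (-t) p))), (-1 : ℝ) • Real.sin (ψ (Φ (-t) p))) := by
        unfold XF
        simp [Real.cos_neg, Real.sin_neg]
      rw [e4]
      exact e3
    obtain ⟨K, hK, hKc⟩ := bdd_curve (ψ := fun q : P2 => -ψ (-q.1, q.2)) (R := R)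
      (by
        intro q hq
        rw [neg_eq_zero]
        apply hψR
        rw [Prod.norm_def] at hq ⊢
        simpa using hq) hd
      (by
        intro t ht
        have := hcon (-t) (by linarith)
        simp only
        linarith)
    have hadd' : ∀ s t : ℝ, Φ (-(s + t)) = Φ (-s) * Φ (-t) := by
      intro s t
      rw [neg_add, hadd]
    obtain ⟨M, m1, m2, m3, m4, m5⟩ := omega_set (fun t => Φ (-t)) hadd'
      (hsm.continuous.comp (continuous_fst.neg.prodMk continuous_snd))
      ((fun q : P2 => ((-q.1, q.2) : P2)) '' K) (hK.image (by fun_prop)) p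
      (by
        intro t ht
        refine ⟨_, hKc t ht, ?_⟩
        simp)
    refine hN ψ Φ hψ hΦ M m1 m2 ?_
    intro t q hq
    have := m4 (-t) q hq
    simpa using this

end Pool.Agent.W509.DQ
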